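import Pool.Agent.R537.LR.Stm

set_option autoImplicit false

namespace Pool.Agent.NPC.R537LR

open Finset

theorem yes_zero {m : ℕ} {H : ℕ → ℕ → ℝ} (hH : GoodH m H) :
    ∑ a : Fin m, ∑ b : Fin m, H a b = 0 := by
  refine Finset.sum_eq_zero fun a _ => ?_
  rw [← hH.row a a.2, Finset.sum_range]

theorem t_YES : S_YES := by
  intro R C _ _ _ _ P m H W Q p l hok hH hm hW hQ hx h0 h1 hN
  have hEo : P.E P.ro P.co = some 1 := by
    unfold Pt.E
    rw [hok.co_none, hok.ro_none]
    simp
  have hwo : P.w W Q P.ro P.co = 1 := by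
    unfold Pt.w
    rw [hok.co_none, hok.ro_none]
    simp
  have hNpos : ∀ r c, 0 ≤ P.N r c := by
    intro r c
    unfold Pt.N
    split
    · norm_num
    · split <;> norm_num
  have key : ∀ r c, P.w W Q r c * ∑ a : Fin m, ∑ b : Fin m, |P.A H r c a b - ∑ s, p r s * l c s| =
      (if P.E r c = none then P.w W Q r c * P.N r c else 0) * (m : ℝ) ^ 2 +
        (if r = P.ro then (if c = P.co then (m : ℝ) ^ 2 * (1 - ∑ s, p P.ro s * l P.co s) else 0)
          else 0) := by
    intro r c
    by_cases hrc : r = P.ro ∧ c = P.co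
    · obtain ⟨rfl, rfl⟩ := hrc
      have hA : ∀ a b : ℕ, P.A H P.ro P.co a b = 1 := by
        intro a b; unfold Pt.A; rw [hEo]
      rw [hwo, hEo]
      simp only [hA, reduceCtorEq, if_false, if_true]
      rw [abs_of_nonneg (by linarith : (0 : ℝ) ≤ 1 - ∑ s, p P.ro s * l P.co s)]
      simp only [Finset.sum_const, Finset.card_univ, Fintype.card_fin, nsmul_eq_mul]
      ring
    · have hδ : (if r = P.ro then (if c = P.co then
          (m : ℝ) ^ 2 * (1 - ∑ s, p P.ro s * l P.co s) else 0) else 0) = 0 := by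
        by_cases hr : r = P.ro
        · rw [if_pos hr, if_neg (fun hc => hrc ⟨hr, hc⟩)]
        · rw [if_neg hr]
      rw [hδ, add_zero]
      cases hE : P.E r c with
      | some x =>
        have h2 := hx r c x hrc hE
        have hA : ∀ a b : ℕ, P.A H r c a b = x := by
          intro a b; unfold Pt.A; rw [hE]
        simp only [hA, reduceCtorEq, if_false]
        rw [← h2]
        simp
      | none =>
        have hA : ∀ a b : ℕ, P.A H r c a b = P.N r c * H a b := by
          intro a b; unfold Pt.A; rw [hE]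
        simp only [hA, if_true]
        have h2 := hN r c hE
        set β := ∑ s, p r s * l c s
        have h3 : ∀ a b : ℕ, |P.N r c * H a b - β| = P.N r c - β * H a b := by
          intro a b
          rw [abs_le] at h2
          rcases hH.sign a b with h4 | h4
          · rw [h4, abs_of_nonneg (by linarith [h2.2])]; ring
          · rw [h4, abs_of_nonpos (by linarith [h2.1])]; ring
        simp only [h3, Finset.sum_sub_distrib, ← Finset.mul_sum]
        rw [yes_zero hH]
        simp only [Finset.sum_const, Finset.card_univ, Fintype.card_fin, nsmul_eq_mul]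
        ring
  unfold Pt.cost Pt.base
  simp only [key, Finset.sum_add_distrib, ← Finset.sum_mul]
  have h5 : (∑ r : R, if r = P.ro then (∑ c : C, if c = P.co then
      (m : ℝ) ^ 2 * (1 - ∑ s, p P.ro s * l P.co s) else 0) else 0) =
      (m : ℝ) ^ 2 * (1 - ∑ s, p P.ro s * l P.co s) := by
    simp
  have h6 : (∑ r : R, ∑ c : C, if r = P.ro then (if c = P.co then
      (m : ℝ) ^ 2 * (1 - ∑ s, p P.ro s * l P.co s) else 0) else 0) =
      (m : ℝ) ^ 2 * (1 - ∑ s, p P.ro s * l P.co s) := by
    rw [← h5]
    refine Finset.sum_congr rfl fun r _ => ?_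
    split_ifs <;> simp
  have h7 : (0 : ℝ) < (m : ℝ) ^ 2 := by positivity
  have h8 : (m : ℝ) ^ 2 * (1 - ∑ s, p P.ro s * l P.co s) < (m : ℝ) ^ 2 := by nlinarith
  rw [h6]
  have h9 : ∀ x : ℝ, x * (m : ℝ) ^ 2 + (m : ℝ) ^ 2 * (1 - ∑ s, p P.ro s * l P.co s) <
      (x + 1) * (m : ℝ) ^ 2 := by
    intro x; linarith
  convert h9 _ using 4

end Pool.Agent.NPC.R537LR
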